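import Pool.Agent.Q75.DSB

/-!
# MP_9bb08e_al: dense subfields of the real closure of `ℚ(t)`

Let `K` be the real closure of `ℚ(t)`, `t` infinitely large.  There is a subfield `F` of `K` which
is dense in `K` and in which `ℚ` is relatively algebraically closed.  (Full answer to Q1: yes.)

Idea: take a maximal pair `(L, τ)`, where `ℚ(t) ⊆ L ⊆ K` and `τ : L → ℚ((u))` is a field
embedding with `τ(t) = u`.  As `ℚ` is relatively algebraically closed in `ℚ((u))`, it is so in
`L`.  `L` is dense in `K`: given `a < x < b` with minimal polynomial `P` of `x` over `L`, of degree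
`n`, the monic polynomial `G = Q + (tᵐ/(1+tᵐ)) (P - Q)`, `Q = X(X-1)⋯(X-n+1)`, is near to `P` for
the order of `K`, so that it has a root in `(a,b)`, and near to `Q` in `ℚ((u))`, so that `τ(G)`
splits over `ℚ((u))` by Hensel's lemma; by maximality all roots of `G` in `K` are in `L`.
-/

namespace Pool.Agent.Results.MP_9bb08e_al.DenseSubfield

open Polynomial Pool.Agent.Q75

/-- If `K` is a real closed ordered field which is algebraic over `ℚ(t)` and in which `t` is
larger than all natural numbers (that is, `K` is the real closure of the ordered field `ℚ(t)` of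
the problem), then some subfield `F` of `K` contains `ℚ(t)`, is dense in `K`, and every element of
`F` which is algebraic over `ℚ` is rational. -/
theorem result (K : Type*) [Field K] [LinearOrder K] [IsStrictOrderedRing K] [IsRealClosed K]
    [Algebra (RatFunc ℚ) K] [Algebra.IsAlgebraic (RatFunc ℚ) K]
    (ht : ∀ n : ℕ, (n : K) < algebraMap (RatFunc ℚ) K RatFunc.X) :
    ∃ F : Subfield K, (∀ r : RatFunc ℚ, algebraMap (RatFunc ℚ) K r ∈ F) ∧
      (∀ a b : K, a < b → ∃ f ∈ F, a < f ∧ f < b) ∧
      ∀ x ∈ F, IsAlgebraic ℚ x → ∃ q : ℚ, x = (q : K) := by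
  classical
  let _ : Algebra (RatFunc ℚ) DSA.La := RatFunc.liftAlgebra ℚ DSA.La
  obtain ⟨φ, -, hφ⟩ := zorn_le_nonempty_Ici₀
    (⊥ : IntermediateField.Lifts (RatFunc ℚ) K DSA.La)
    (fun c _ hc _ _ ↦ IntermediateField.Lifts.exists_upper_bound c hc) ⊥ le_rfl
  refine ⟨φ.carrier.toSubfield, fun r => φ.carrier.algebraMap_mem r, ?_, ?_⟩
  · intro a b hab
    -- cofinality of the powers of `t`
    let ψ : ℚ[X] →+* K := (algebraMap (RatFunc ℚ) K).comp (algebraMap ℚ[X] (RatFunc ℚ))
    have hψX : ψ X = algebraMap (RatFunc ℚ) K RatFunc.X := by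
      simp only [ψ, RingHom.comp_apply, RatFunc.algebraMap_X]
    have htψ : ∀ n : ℕ, (n : K) < ψ X := by rw [hψX]; exact ht
    have hcof : ∀ y : K, ∃ m : ℕ, y < ψ X ^ m := by
      intro y
      let _ : Algebra ℚ[X] K := ψ.toAlgebra
      have : IsScalarTower ℚ[X] (RatFunc ℚ) K := IsScalarTower.of_algebraMap_eq fun _ => rfl
      have hy : IsAlgebraic (RatFunc ℚ) y := Algebra.IsAlgebraic.isAlgebraic y
      rw [← IsFractionRing.isAlgebraic_iff ℚ[X] (RatFunc ℚ) K] at hy
      obtain ⟨p, hp, hpy⟩ := hy
      exact DSB.cofinal ψ htψ y p hp hpy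
    have h1t := DSB.one_lt ψ htψ
    have h0t : 0 < ψ X := zero_lt_one.trans h1t
    -- the element to be approximated
    set x : K := (a + b) / 2 with hx
    have hax : a < x := by rw [hx]; linarith
    have hxb : x < b := by rw [hx]; linarith
    have : Algebra.IsAlgebraic φ.carrier K := Algebra.IsAlgebraic.tower_top (K := RatFunc ℚ) _
    have hint : ∀ y : K, IsIntegral φ.carrier y := fun y =>
      (Algebra.IsAlgebraic.isAlgebraic y).isIntegral
    set ι := algebraMap φ.carrier K with hι
    set P := minpoly φ.carrier x with hP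
    have hPm : P.Monic := minpoly.monic (hint x)
    set n := P.natDegree with hn
    have hroot : (P.map ι).IsRoot x := by
      rw [IsRoot.def, eval_map]
      exact minpoly.aeval _ _
    obtain ⟨R, hR⟩ := dvd_iff_isRoot.2 hroot
    have hRx : R.eval x ≠ 0 := by
      have hsep : P.Separable := (minpoly.irreducible (hint x)).separable
      have h1 := hsep.aeval_derivative_ne_zero (x := x) (minpoly.aeval _ _)
      have h2 : aeval x (derivative P) = (derivative (P.map ι)).eval x := by
        rw [derivative_map, eval_map]; rfl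
      rw [h2, hR] at h1
      simpa using h1
    obtain ⟨c, d, hac, hcd, hdb, hsign⟩ := DSB.sign_change R a b x hax hxb hRx
    rw [← hR] at hsign
    set Q := DSA.QQ φ.carrier n with hQ
    have hQm : Q.Monic := DSA.QQ_monic _ _
    have hQn : Q.natDegree = n := DSA.QQ_natDegree _ _
    set W := P - Q with hW
    have hWdeg : W.degree < n := by
      have hd : P.degree = Q.degree := by
        rw [degree_eq_natDegree hPm.ne_zero, degree_eq_natDegree hQm.ne_zero, hQn]
      have := degree_sub_lt_left hd hPm.ne_zero (by rw [hPm.leadingCoeff, hQm.leadingCoeff])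
      rwa [degree_eq_natDegree hPm.ne_zero] at this
    obtain ⟨m₀, hm₀⟩ := DSA.exists_lift (W.map φ.emb.toRingHom)
    obtain ⟨m₁, hm₁⟩ := hcof (|(W.map ι).eval c| / |(P.map ι).eval c|)
    obtain ⟨m₂, hm₂⟩ := hcof (|(W.map ι).eval d| / |(P.map ι).eval d|)
    set m := m₀ + m₁ + m₂ + 1 with hm
    obtain ⟨W', hW'1, hW'2⟩ := hm₀ m (by omega)
    have hcm : |(W.map ι).eval c| / |(P.map ι).eval c| < ψ X ^ m :=
      hm₁.trans_le (pow_le_pow_right₀ h1t.le (by omega))
    have hdm : |(W.map ι).eval d| / |(P.map ι).eval d| < ψ X ^ m :=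
      hm₂.trans_le (pow_le_pow_right₀ h1t.le (by omega))
    -- the approximating polynomial
    set T : φ.carrier := algebraMap (RatFunc ℚ) φ.carrier RatFunc.X with hT
    have hιT : ι T = ψ X := by
      rw [hψX, hT, hι, ← IsScalarTower.algebraMap_apply]
    set δ : φ.carrier := (1 + T ^ m)⁻¹ with hδ
    have hιδ : ι δ = (1 + ψ X ^ m)⁻¹ := by
      rw [hδ, map_inv₀, map_add, map_one, map_pow, hιT]
    have hpm : 0 < ψ X ^ m := pow_pos h0t m
    set G := P - C δ * W with hG
    have hGeval : ∀ y, (G.map ι).eval y = (P.map ι).eval y - (1 + ψ X ^ m)⁻¹ * (W.map ι).eval y := by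
      intro y
      rw [hG, Polynomial.map_sub, Polynomial.map_mul, map_C, eval_sub, eval_mul, eval_C, hιδ]
    have hPc : (P.map ι).eval c ≠ 0 := by
      intro h; rw [h, zero_mul] at hsign; exact lt_irrefl _ hsign
    have hPd : (P.map ι).eval d ≠ 0 := by
      intro h; rw [h, mul_zero] at hsign; exact lt_irrefl _ hsign
    have haux : ∀ p w : K, p ≠ 0 → |w| / |p| < ψ X ^ m → 0 < (p - (1 + ψ X ^ m)⁻¹ * w) * p := by
      intro p w hp hw
      have hp' : 0 < |p| := abs_pos.2 hp
      have hE : 0 < 1 + ψ X ^ m := by linarith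
      have h1 : |w| < (1 + ψ X ^ m) * |p| := by
        rw [div_lt_iff₀ hp'] at hw
        nlinarith
      have h2 : (1 + ψ X ^ m)⁻¹ * |w| < |p| := by
        rw [inv_mul_lt_iff₀ hE]; exact h1
      have h3 : (1 + ψ X ^ m)⁻¹ * w * p ≤ (1 + ψ X ^ m)⁻¹ * |w| * |p| := by
        have h4 : w * p ≤ |w| * |p| := by rw [← abs_mul]; exact le_abs_self _
        have h5 := mul_le_mul_of_nonneg_left h4 (inv_pos.2 hE).le
        linarith [mul_assoc (1 + ψ X ^ m)⁻¹ w p, mul_assoc (1 + ψ X ^ m)⁻¹ |w| |p|]
      have h6 : |p| * |p| = p * p := abs_mul_abs_self p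
      nlinarith [mul_lt_mul_of_pos_right h2 hp']
    have hsG : (G.map ι).eval c * (G.map ι).eval d < 0 := by
      rw [hGeval, hGeval]
      have h1 := haux _ _ hPc hcm
      have h2 := haux _ _ hPd hdm
      have h3 := mul_pos h1 h2
      by_contra hge
      push Not at hge
      have h4 : ((P.map ι).eval c - (1 + ψ X ^ m)⁻¹ * (W.map ι).eval c) * (P.map ι).eval c *
        (((P.map ι).eval d - (1 + ψ X ^ m)⁻¹ * (W.map ι).eval d) * (P.map ι).eval d) =
        (((P.map ι).eval c - (1 + ψ X ^ m)⁻¹ * (W.map ι).eval c) *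
        ((P.map ι).eval d - (1 + ψ X ^ m)⁻¹ * (W.map ι).eval d)) *
        ((P.map ι).eval c * (P.map ι).eval d) := by ring
      rw [h4] at h3
      exact absurd h3 (not_lt.2 (mul_nonpos_of_nonneg_of_nonpos hge hsign.le))
    obtain ⟨f, hcf, hfd, hf⟩ := RCF.ivt (G.map ι) hcd hsG
    refine ⟨f, ?_, hac.trans hcf, hfd.trans hdb⟩
    -- `τ(G)` splits
    have hτT : φ.emb T = DSA.uu := by
      rw [hT, AlgHom.commutes, RatFunc.coe_X]
      unfold DSA.uu
      rw [← PowerSeries.coe_X]
      rfl
    have hGs : (G.map φ.emb.toRingHom).Splits := by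
      set v : PowerSeries ℚ := (1 + PowerSeries.X ^ m)⁻¹ with hv
      have hvm : (1 + PowerSeries.X ^ m) * v = 1 := by
        rw [hv]
        apply PowerSeries.mul_inv_cancel
        rw [map_add, map_one, map_pow, PowerSeries.constantCoeff_X, zero_pow (by omega), add_zero]
        exact one_ne_zero
      have hvm' : (1 + DSA.uu ^ m) * algebraMap (PowerSeries ℚ) DSA.La v = 1 := by
        have := congrArg (algebraMap (PowerSeries ℚ) DSA.La) hvm
        rw [map_mul, map_add, map_one, map_pow] at this
        exact this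
      have hτδ : φ.emb δ = algebraMap (PowerSeries ℚ) DSA.La v := by
        rw [hδ, map_inv₀, map_add, map_one, map_pow, hτT]
        exact inv_eq_of_mul_eq_one_right hvm'
      have key : G.map φ.emb.toRingHom =
          (DSA.QQ (PowerSeries ℚ) n + C v * W').map (algebraMap (PowerSeries ℚ) DSA.La) := by
        have e1 : G = Q + (1 - C δ) * W := by rw [hG, hW]; ring
        rw [e1]
        simp only [Polynomial.map_add, Polynomial.map_mul, Polynomial.map_sub, Polynomial.map_one,
          map_C]
        rw [hW'1, hQ, DSA.QQ_map, DSA.QQ_map]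
        congr 1
        rw [← mul_assoc]
        congr 1
        rw [← C_mul, ← C_1, ← C_sub]
        congr 1
        change 1 - φ.emb δ = _
        rw [hτδ]
        linear_combination -hvm'
      rw [key]
      apply DSA.split_of_near
      · have hinj : Function.Injective (algebraMap (PowerSeries ℚ) DSA.La) :=
          IsFractionRing.injective _ _
        have h1 : W'.degree ≤ W.degree := by
          rw [← degree_map_eq_of_injective hinj, hW'1]
          refine le_trans (degree_mul_le _ _) ?_
          refine le_trans (add_le_add degree_C_le (degree_map_le)) ?_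
          rw [zero_add]
        refine lt_of_le_of_lt (degree_mul_le _ _) ?_
        refine lt_of_le_of_lt (add_le_add (degree_C_le) h1) ?_
        rw [zero_add]
        exact hWdeg
      · intro i
        rw [coeff_C_mul, map_mul, hW'2, mul_zero]
    have hG0 : G ≠ 0 := by
      have : G.Monic := by
        rw [hG]
        refine hPm.sub_of_left ?_
        rw [degree_eq_natDegree hPm.ne_zero]
        refine lt_of_le_of_lt (degree_mul_le _ _) ?_
        refine lt_of_le_of_lt (add_le_add (degree_C_le) le_rfl) ?_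
        rw [zero_add]
        exact hWdeg
      exact this.ne_zero
    have hdvd : minpoly φ.carrier f ∣ G := by
      apply minpoly.dvd
      rw [← hf, eval_map]
      rfl
    have hmap0 : G.map φ.emb.toRingHom ≠ 0 := by
      rw [Ne, Polynomial.map_eq_zero]; exact hG0
    obtain ⟨y, hy1, hy2⟩ := φ.exists_lift_of_splits' (hint f)
      (hGs.of_dvd hmap0 (Polynomial.map_dvd _ hdvd))
    exact (hφ hy1).1 hy2
  · intro x hx hxa
    have hx' : x ∈ φ.carrier := hx
    have hinj : Function.Injective φ.emb := φ.emb.toRingHom.injective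
    have h1 : IsAlgebraic ℚ (⟨x, hx'⟩ : φ.carrier) := by
      obtain ⟨p, hp, hpx⟩ := hxa
      refine ⟨p, hp, ?_⟩
      apply Subtype.val_injective
      have h2 := Polynomial.hom_eval₂ p (algebraMap ℚ φ.carrier) (algebraMap φ.carrier K)
        ⟨x, hx'⟩
      have h3 : (algebraMap φ.carrier K).comp (algebraMap ℚ φ.carrier) = algebraMap ℚ K :=
        Subsingleton.elim _ _
      rw [h3] at h2
      exact h2.trans hpx
    have h2 : IsAlgebraic ℚ (φ.emb ⟨x, hx'⟩) := by
      obtain ⟨p, hp, hpx⟩ := h1
      refine ⟨p, hp, ?_⟩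
      have h2 := Polynomial.hom_eval₂ p (algebraMap ℚ φ.carrier) φ.emb.toRingHom ⟨x, hx'⟩
      have h3 : φ.emb.toRingHom.comp (algebraMap ℚ φ.carrier) = algebraMap ℚ DSA.La :=
        Subsingleton.elim _ _
      rw [h3] at h2
      refine h2.symm.trans ?_
      change φ.emb.toRingHom (aeval _ p) = 0
      rw [hpx, map_zero]
    obtain ⟨q, hq⟩ := DSA.la_const _ h2
    refine ⟨q, ?_⟩
    have h3 : φ.emb ⟨x, hx'⟩ = φ.emb (q : φ.carrier) := by
      rw [hq, map_ratCast]
      simp
    exact (congrArg Subtype.val (hinj h3)).trans (by simp)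

end Pool.Agent.Results.MP_9bb08e_al.DenseSubfield
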